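import Pool.Agent.Helper89.Vol4.Goals

/-! Project V47 (MP_cd13d2_co), packet WIT: the inequality of Witsenhausen for seven points. -/

set_option autoImplicit false

namespace Pool.Agent.Helper91.Vol4.PkWIT

open Pool.Agent.Helper86.Poly Pool.Agent.Helper89.Vol4

/-- the affine dependencies -/
noncomputable def dep (x : Fin 7 → E 4) : EuclideanSpace ℝ (Fin 7) →ₗ[ℝ] ℝ × E 4 :=
  { toFun := fun w => (∑ i, w i, ∑ i, w i • x i)
    map_add' := fun v w => by
      simp only [PiLp.add_apply, add_smul, Finset.sum_add_distrib, Prod.mk_add_mk]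
    map_smul' := fun c w => by
      simp only [PiLp.smul_apply, smul_eq_mul, ← Finset.mul_sum, mul_smul, ← Finset.smul_sum,
        RingHom.id_apply, Prod.smul_mk] }

lemma two_dep (x : Fin 7 → E 4) : ∃ p q : EuclideanSpace ℝ (Fin 7), dep x p = 0 ∧ dep x q = 0 ∧
    ∑ i, p i ^ 2 = 1 ∧ ∑ i, q i ^ 2 = 1 ∧ ∑ i, p i * q i = 0 := by
  have h1 : 2 ≤ Module.finrank ℝ (LinearMap.ker (dep x)) := by
    have h2 := LinearMap.finrank_range_add_finrank_ker (dep x)
    have h3 : Module.finrank ℝ (LinearMap.range (dep x)) ≤ 5 := by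
      refine (Submodule.finrank_le _).trans ?_
      simp
    rw [finrank_euclideanSpace, Fintype.card_fin] at h2
    omega
  let b := stdOrthonormalBasis ℝ (LinearMap.ker (dep x))
  let i0 : Fin (Module.finrank ℝ (LinearMap.ker (dep x))) := ⟨0, by omega⟩
  let i1 : Fin (Module.finrank ℝ (LinearMap.ker (dep x))) := ⟨1, by omega⟩
  have hb := b.orthonormal
  have h01 : i0 ≠ i1 := by
    intro h
    have := congrArg Fin.val h
    simp [i0, i1] at this
  have n0 : ‖((b i0 : LinearMap.ker (dep x)) : EuclideanSpace ℝ (Fin 7))‖ = 1 := hb.1 i0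
  have n1 : ‖((b i1 : LinearMap.ker (dep x)) : EuclideanSpace ℝ (Fin 7))‖ = 1 := hb.1 i1
  have n2 : inner ℝ ((b i0 : LinearMap.ker (dep x)) : EuclideanSpace ℝ (Fin 7))
    ((b i1 : LinearMap.ker (dep x)) : EuclideanSpace ℝ (Fin 7)) = 0 := hb.2 h01
  refine ⟨b i0, b i1, (b i0).2, (b i1).2, ?_, ?_, ?_⟩
  · have := EuclideanSpace.norm_sq_eq ((b i0 : LinearMap.ker (dep x)) : EuclideanSpace ℝ (Fin 7))
    rw [n0] at this
    simp only [Real.norm_eq_abs, sq_abs] at this
    rw [← this]; norm_num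
  · have := EuclideanSpace.norm_sq_eq ((b i1 : LinearMap.ker (dep x)) : EuclideanSpace ℝ (Fin 7))
    rw [n1] at this
    simp only [Real.norm_eq_abs, sq_abs] at this
    rw [← this]; norm_num
  · rw [PiLp.inner_apply] at n2
    rw [← n2]
    refine Finset.sum_congr rfl fun i _ => ?_
    simp only [RCLike.inner_apply, conj_trivial]
    ring

lemma quad (x : Fin 7 → E 4) (w : Fin 7 → ℝ) (h0 : ∑ i, w i = 0) (h1 : ∑ i, w i • x i = 0) :
    ∑ i, ∑ j, w i * w j * dist (x i) (x j) ^ 2 = 0 := by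
  have e : ∀ i j, w i * w j * dist (x i) (x j) ^ 2 =
      (w i * ‖x i‖ ^ 2) * w j + w i * (w j * ‖x j‖ ^ 2) - 2 * inner ℝ (w i • x i) (w j • x j) := by
    intro i j
    rw [dist_eq_norm, norm_sub_sq_real, inner_smul_left, inner_smul_right]
    simp only [conj_trivial]
    ring
  simp only [e, Finset.sum_sub_distrib, Finset.sum_add_distrib, ← Finset.mul_sum, ← inner_sum, h0,
    h1, inner_zero_right, ← Finset.sum_mul]
  simp

theorem thm : G_WIT := by
  intro x hx
  obtain ⟨p, q, hp, hq, pp, qq, pq⟩ := two_dep x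
  have hp0 : ∑ i, p i = 0 := congrArg Prod.fst hp
  have hp1 : ∑ i, p i • x i = 0 := congrArg Prod.snd hp
  have hq0 : ∑ i, q i = 0 := congrArg Prod.fst hq
  have hq1 : ∑ i, q i • x i = 0 := congrArg Prod.snd hq
  have ep := quad x p hp0 hp1
  have eq := quad x q hq0 hq1
  -- the projection
  have hrow : ∀ i, ∑ k, (p i * p k + q i * q k) ^ 2 = p i ^ 2 + q i ^ 2 := by
    intro i
    have e : ∀ k, (p i * p k + q i * q k) ^ 2 =
        p i ^ 2 * p k ^ 2 + 2 * p i * q i * (p k * q k) + q i ^ 2 * q k ^ 2 := fun k => by ring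
    simp only [e, Finset.sum_add_distrib, ← Finset.mul_sum, pp, qq, pq]
    ring
  have hhalf : ∀ i j, i ≠ j → -(1 / 2) ≤ p i * p j + q i * q j := by
    intro i j hij
    have h1 : (p i * p i + q i * q i) ^ 2 + (p i * p j + q i * q j) ^ 2 ≤ p i ^ 2 + q i ^ 2 := by
      rw [← hrow i, ← Finset.add_sum_erase Finset.univ _ (Finset.mem_univ i)]
      refine add_le_add le_rfl ?_
      exact Finset.single_le_sum (f := fun k => (p i * p k + q i * q k) ^ 2)
        (fun k _ => sq_nonneg _) (Finset.mem_erase.2 ⟨hij.symm, Finset.mem_univ j⟩)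
    nlinarith [sq_nonneg (p i * p i + q i * q i - 1 / 2), sq_nonneg (p i * p j + q i * q j)]
  have hD : ∀ i j, dist (x i) (x j) ^ 2 ≤ 1 := by
    intro i j
    have h1 := hx i j
    have h2 : 0 ≤ dist (x i) (x j) := dist_nonneg
    nlinarith
  have key : ∀ i j, (p i * p j + q i * q j) * (1 - dist (x i) (x j) ^ 2) ≥
      -(1 / 2) * (1 - dist (x i) (x j) ^ 2) +
        (if i = j then p i ^ 2 + q i ^ 2 + 1 / 2 else 0) := by
    intro i j
    by_cases hij : i = j
    · subst hij
      simp only [dist_self, if_true]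
      nlinarith
    · simp only [hij, if_false, add_zero]
      exact mul_le_mul_of_nonneg_right (hhalf i j hij) (sub_nonneg.2 (hD i j))
  have hsum : ∑ i, ∑ j, (p i * p j + q i * q j) * (1 - dist (x i) (x j) ^ 2) = 0 := by
    have e : ∀ i j, (p i * p j + q i * q j) * (1 - dist (x i) (x j) ^ 2) =
        p i * p j + q i * q j - p i * p j * dist (x i) (x j) ^ 2 -
          q i * q j * dist (x i) (x j) ^ 2 := fun i j => by ring
    simp only [e, Finset.sum_sub_distrib, Finset.sum_add_distrib, ep, eq, ← Finset.mul_sum, hp0,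
      hq0]
    simp
  have hsum2 := Finset.sum_le_sum fun i (_ : i ∈ Finset.univ) =>
    Finset.sum_le_sum fun j (_ : j ∈ Finset.univ) => key i j
  rw [hsum] at hsum2
  simp only [Finset.sum_add_distrib, Finset.sum_ite_eq, Finset.mem_univ, if_true, pp, qq,
    ← Finset.mul_sum, Finset.sum_sub_distrib, Finset.sum_const, Finset.card_univ, Fintype.card_fin,
    nsmul_eq_mul] at hsum2
  norm_num at hsum2
  linarith

end Pool.Agent.Helper91.Vol4.PkWIT
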